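import Pool.Agent.H41.HYP.S3
import Pool.Agent.H80.AVS.GLU
import Mathlib.LinearAlgebra.Matrix.Transvection

/-!
# HYP, modules HNF and GLUN: gluing at finitely many finite places
-/

set_option autoImplicit false

namespace Pool.HYP

open Polynomial Matrix Pool.AVS Pool.AVS.GLU

namespace HNF

variable {F : Type} [Field F] {n : ℕ}

theorem RR_sum {P : F[X]} (hP : Irreducible P) {ι : Type} (s : Finset ι) (f : ι → RatFunc F)
    (h : ∀ i ∈ s, RR P (f i)) : RR P (∑ i ∈ s, f i) := by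
  classical
  induction s using Finset.induction_on with
  | empty => simpa using RR.pol P 0
  | insert a s ha ih =>
    rw [Finset.sum_insert ha]
    exact RR.add hP (h a (Finset.mem_insert_self a s))
      (ih fun i hi => h i (Finset.mem_insert_of_mem hi))

theorem boundn {P : F[X]} (hP : Irreducible P) (M : Matrix (Fin n) (Fin n) (RatFunc F)) :
    ∃ c : ℕ, ∀ i j, (algebraMap F[X] (RatFunc F) P) ^ c * M i j ∈ OO hP := by
  choose f hf using fun p : Fin n × Fin n => bound1 hP (M p.1 p.2)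
  refine ⟨Finset.univ.sup f, fun i j => ?_⟩
  exact hf (i, j) _ (Finset.le_sup (f := f) (Finset.mem_univ (i, j)))

/-- Approximable by matrices over `F[t][1/P]` with the same determinant, a power of `P`. -/
def Apn {P : F[X]} (hP : Irreducible P) (M : Matrix (Fin n) (Fin n) (RatFunc F)) : Prop :=
  (∃ k : ℤ, M.det = (algebraMap F[X] (RatFunc F) P) ^ k) ∧
  ∀ N : ℕ, ∃ M' : Matrix (Fin n) (Fin n) (RatFunc F), (∀ i j, RR P (M' i j)) ∧
    M'.det = M.det ∧ ∀ i j, dv hP N (M' i j - M i j)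

theorem Apn.mul {P : F[X]} {hP : Irreducible P} {A B : Matrix (Fin n) (Fin n) (RatFunc F)}
    (hA : Apn hP A) (hB : Apn hP B) : Apn hP (A * B) := by
  refine ⟨?_, ?_⟩
  · obtain ⟨k, hk⟩ := hA.1
    obtain ⟨l, hl⟩ := hB.1
    exact ⟨k + l, by rw [det_mul, hk, hl, zpow_add₀ (ne_zero' hP)]⟩
  intro N
  obtain ⟨c, hc⟩ := boundn hP A
  obtain ⟨c', hc'⟩ := boundn hP B
  obtain ⟨B', hB1, hB2, hB3⟩ := hB.2 (N + c)
  obtain ⟨A', hA1, hA2, hA3⟩ := hA.2 (N + c')
  refine ⟨A' * B', ?_, by rw [det_mul, det_mul, hA2, hB2], ?_⟩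
  · intro i j
    rw [mul_apply]
    exact RR_sum hP _ _ fun k _ => RR.mul hP (hA1 _ _) (hB1 _ _)
  · intro i j
    have h1 : (A' * B') i j - (A * B) i j =
        ∑ k, ((B' k j - B k j) * A i k + ((A' i k - A i k) * B k j +
          (A' i k - A i k) * (B' k j - B k j))) := by
      rw [mul_apply, mul_apply, ← Finset.sum_sub_distrib]
      refine Finset.sum_congr rfl fun k _ => ?_
      ring
    rw [h1]
    refine dv.sum _ _ fun k _ => ?_
    refine dv.add ?_ (dv.add ?_ ?_)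
    · exact dv.mul_bd (hB3 k j) (hc i k)
    · exact dv.mul_bd (hA3 i k) (hc' k j)
    · have h2 : dv hP (N + (c' + (N + c))) ((A' i k - A i k) * (B' k j - B k j)) := by
        have := dv.mul (hA3 i k) (hB3 k j)
        rwa [add_assoc] at this
      exact dv.mono h2

theorem dv_zero {P : F[X]} (hP : Irreducible P) (N : ℕ) : dv hP N 0 := by
  show (0 : RatFunc F) / _ ∈ OO hP
  rw [zero_div]
  exact zero_mem _

theorem Apn.transv {P : F[X]} (hP : Irreducible P) (i j : Fin n) (hij : i ≠ j)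
    (c : RatFunc F) : Apn hP (transvection i j c) := by
  refine ⟨⟨0, by rw [det_transvection_of_ne i j hij c, zpow_zero]⟩, ?_⟩
  intro N
  obtain ⟨c', h1, h2⟩ := approx hP c N
  refine ⟨transvection i j c', ?_, by
    rw [det_transvection_of_ne i j hij c', det_transvection_of_ne i j hij c], ?_⟩
  · intro k l
    unfold transvection
    rw [Matrix.add_apply, Matrix.single_apply, Matrix.one_apply]
    refine RR.add hP ?_ ?_
    · split_ifs
      · simpa using RR.pol P 1
      · simpa using RR.pol P 0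
    · split_ifs
      · exact h1
      · simpa using RR.pol P 0
  · intro k l
    unfold transvection
    rw [Matrix.add_apply, Matrix.single_apply, Matrix.add_apply, Matrix.single_apply,
      add_sub_add_left_eq_sub]
    split_ifs
    · exact h2
    · rw [sub_zero]
      exact dv_zero hP N

theorem Apn.exact {P : F[X]} (hP : Irreducible P) {M : Matrix (Fin n) (Fin n) (RatFunc F)}
    (h1 : ∀ i j, RR P (M i j)) {k : ℤ} (hk : M.det = (algebraMap F[X] (RatFunc F) P) ^ k) :
    Apn hP M :=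
  ⟨⟨k, hk⟩, fun N => ⟨M, h1, rfl, fun i j => by rw [sub_self]; exact dv_zero hP N⟩⟩

theorem Apn.one {P : F[X]} (hP : Irreducible P) :
    Apn hP (1 : Matrix (Fin n) (Fin n) (RatFunc F)) := by
  refine Apn.exact hP (k := 0) (fun i j => ?_) (by rw [det_one, zpow_zero])
  rw [Matrix.one_apply]
  split_ifs
  · simpa using RR.pol P 1
  · simpa using RR.pol P 0

theorem prod_zpow' {K : Type} [Field K] {π : K} (h0 : π ≠ 0) {ι : Type} (s : Finset ι)
    (k : ι → ℤ) : ∏ i ∈ s, π ^ k i = π ^ (∑ i ∈ s, k i) := by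
  classical
  induction s using Finset.induction_on with
  | empty => simp
  | insert a s ha ih => rw [Finset.prod_insert ha, Finset.sum_insert ha, ih, zpow_add₀ h0]

theorem Apn.diag {P : F[X]} (hP : Irreducible P) (k : Fin n → ℤ) :
    Apn hP (diagonal fun i => (algebraMap F[X] (RatFunc F) P) ^ k i) := by
  refine Apn.exact hP (k := ∑ i, k i) (fun i j => ?_) ?_
  · rw [Matrix.diagonal_apply]
    split_ifs
    · exact RR.zpow _
    · simpa using RR.pol P 0
  · rw [det_diagonal, prod_zpow' (ne_zero' hP)]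

theorem Apn.list {P : F[X]} (hP : Irreducible P)
    (L : List (TransvectionStruct (Fin n) (RatFunc F))) :
    Apn hP (L.map TransvectionStruct.toMatrix).prod := by
  induction L with
  | nil => simpa using Apn.one hP
  | cons t L ih =>
    rw [List.map_cons, List.prod_cons]
    exact Apn.mul (Apn.transv hP t.i t.j t.hij t.c) ih

theorem conj_list {P : F[X]} (hP : Irreducible P) (u : Fin n → RatFunc F) (hu : ∀ i, u i ≠ 0)
    (L : List (TransvectionStruct (Fin n) (RatFunc F))) :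
    ∃ B, Apn hP B ∧ diagonal u * (L.map TransvectionStruct.toMatrix).prod = B * diagonal u := by
  induction L with
  | nil => exact ⟨1, Apn.one hP, by simp⟩
  | cons t L ih =>
    obtain ⟨B, hB, h⟩ := ih
    refine ⟨transvection t.i t.j (u t.i * t.c * (u t.j)⁻¹) * B,
      Apn.mul (Apn.transv hP t.i t.j t.hij _) hB, ?_⟩
    rw [List.map_cons, List.prod_cons, Matrix.mul_assoc, ← h, ← Matrix.mul_assoc,
      ← Matrix.mul_assoc]
    congr 1
    have hj := hu t.j
    unfold TransvectionStruct.toMatrix transvection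
    rw [Matrix.mul_add, Matrix.add_mul, Matrix.mul_one, Matrix.one_mul]
    congr 1
    ext a b
    rw [diagonal_mul, mul_diagonal, Matrix.single_apply, Matrix.single_apply]
    by_cases hh : t.i = a ∧ t.j = b
    · obtain ⟨rfl, rfl⟩ := hh
      rw [if_pos ⟨rfl, rfl⟩, if_pos ⟨rfl, rfl⟩]
      field_simp
    · rw [if_neg hh, if_neg hh, mul_zero, zero_mul]

/-- Every invertible matrix is a product of an approximable one and a unit. -/
theorem decomp {P : F[X]} (hP : Irreducible P) (M : Matrix (Fin n) (Fin n) (RatFunc F))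
    (hM : M.det ≠ 0) : ∃ (A : Matrix (Fin n) (Fin n) (RatFunc F)) (u : Fin n → RatFunc F),
      Apn hP A ∧ (∀ i, u i ≠ 0 ∧ u i ∈ OO hP ∧ (u i)⁻¹ ∈ OO hP) ∧ M = A * diagonal u := by
  obtain ⟨L, L', D, hD⟩ := Matrix.Pivot.exists_list_transvec_mul_diagonal_mul_list_transvec M
  have hD0 : ∀ i, D i ≠ 0 := by
    intro i hi
    apply hM
    rw [hD, det_mul, det_mul, det_diagonal, Finset.prod_eq_zero (Finset.mem_univ i) hi]
    ring
  choose k u h1 h2 h3 h4 using fun i => exists_unit hP (D i) (hD0 i)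
  obtain ⟨B, hB, h5⟩ := conj_list hP u h2 L'
  refine ⟨(L.map TransvectionStruct.toMatrix).prod *
    (diagonal fun i => (algebraMap F[X] (RatFunc F) P) ^ k i) * B, u,
    Apn.mul (Apn.mul (Apn.list hP L) (Apn.diag hP k)) hB, fun i => ⟨h2 i, h3 i, h4 i⟩, ?_⟩
  rw [Matrix.mul_assoc _ B, ← h5, hD, ← Matrix.mul_assoc]
  congr 1
  rw [Matrix.mul_assoc]
  congr 1
  rw [diagonal_mul_diagonal]
  congr 1
  funext i
  exact h1 i

theorem GIn.mul {Q : F[X]} (hQ : Irreducible Q) {A B : Matrix (Fin n) (Fin n) (RatFunc F)}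
    (hA : GIn (IP Q) A) (hB : GIn (IP Q) B) : GIn (IP Q) (A * B) := by
  refine ⟨fun i j => ?_, ?_, ?_, ?_⟩
  · show (A * B) i j ∈ OO hQ
    rw [mul_apply]
    exact sum_mem fun k _ => mul_mem (show A i k ∈ OO hQ from hA.1 i k)
      (show B k j ∈ OO hQ from hB.1 k j)
  · rw [det_mul]
    exact mul_ne_zero hA.2.1 hB.2.1
  · show (A * B).det ∈ OO hQ
    rw [det_mul]
    exact mul_mem (show A.det ∈ OO hQ from hA.2.2.1) (show B.det ∈ OO hQ from hB.2.2.1)
  · show ((A * B).det)⁻¹ ∈ OO hQ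
    rw [det_mul, mul_inv]
    exact mul_mem (show A.det⁻¹ ∈ OO hQ from hA.2.2.2) (show B.det⁻¹ ∈ OO hQ from hB.2.2.2)

theorem GIn.one {Q : F[X]} (hQ : Irreducible Q) :
    GIn (IP Q) (1 : Matrix (Fin n) (Fin n) (RatFunc F)) := by
  refine ⟨fun i j => ?_, ?_, ?_, ?_⟩
  · show (1 : Matrix (Fin n) (Fin n) (RatFunc F)) i j ∈ OO hQ
    rw [Matrix.one_apply]
    split_ifs
    · exact one_mem _
    · exact zero_mem _
  · rw [det_one]; exact one_ne_zero
  · show (1 : Matrix (Fin n) (Fin n) (RatFunc F)).det ∈ OO hQ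
    rw [det_one]; exact one_mem _
  · show ((1 : Matrix (Fin n) (Fin n) (RatFunc F)).det)⁻¹ ∈ OO hQ
    rw [det_one, inv_one]; exact one_mem _

/-- One prime. -/
theorem single_prime {P : F[X]} (hP : Irreducible P) (M : Matrix (Fin n) (Fin n) (RatFunc F))
    (hM : M.det ≠ 0) :
    ∃ h : Matrix (Fin n) (Fin n) (RatFunc F), h.det ≠ 0 ∧ (∃ κ, GIn (IP P) κ ∧ h = M * κ) ∧
      ∀ Q : F[X], Irreducible Q → ¬ Q ∣ P → GIn (IP Q) h := by
  have hP0 := ne_zero' hP
  obtain ⟨A, u, hA, hu, hMA⟩ := decomp hP M hM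
  obtain ⟨k, hk⟩ := hA.1
  obtain ⟨c, hc⟩ := boundn hP A⁻¹
  obtain ⟨A', h1, h2, h3⟩ := hA.2 (0 + c)
  have hAd : A.det ≠ 0 := by rw [hk]; exact zpow_ne_zero _ hP0
  have hAu : IsUnit A.det := isUnit_iff_ne_zero.2 hAd
  have hui : diagonal u * diagonal (fun i => (u i)⁻¹) = 1 := by
    rw [diagonal_mul_diagonal, ← diagonal_one]
    congr 1
    funext i
    exact mul_inv_cancel₀ (hu i).1
  set κ : Matrix (Fin n) (Fin n) (RatFunc F) := diagonal (fun i => (u i)⁻¹) * (A⁻¹ * A') with hκ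
  have hMκ : A' = M * κ := by
    rw [hMA, hκ, Matrix.mul_assoc, ← Matrix.mul_assoc (diagonal u), hui, Matrix.one_mul,
      Matrix.mul_nonsing_inv_cancel_left _ _ hAu]
  have hinvu : ∀ i, (u i)⁻¹ ∈ OO hP := fun i => (hu i).2.2
  refine ⟨A', by rw [h2]; exact hAd, ⟨κ, ⟨fun i j => ?_, ?_⟩, hMκ⟩, ?_⟩
  · show κ i j ∈ OO hP
    rw [hκ, diagonal_mul]
    refine mul_mem (hinvu i) ?_
    have h4 : A⁻¹ * A' = 1 + A⁻¹ * (A' - A) := by
      rw [Matrix.mul_sub, Matrix.nonsing_inv_mul _ hAu]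
      abel
    rw [h4, Matrix.add_apply]
    refine add_mem ?_ ?_
    · rw [Matrix.one_apply]
      split_ifs
      · exact one_mem _
      · exact zero_mem _
    · have h5 : dv hP 0 ((A⁻¹ * (A' - A)) i j) := by
        rw [mul_apply]
        refine dv.sum _ _ fun k _ => ?_
        rw [mul_comm]
        exact dv.mul_bd (h3 k j) (hc i k)
      unfold dv at h5
      rwa [pow_zero, div_one] at h5
  · have hdk : κ.det = ∏ i, (u i)⁻¹ := by
      rw [hκ, det_mul, det_diagonal, det_mul, h2, det_nonsing_inv, Ring.inverse_eq_inv',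
        inv_mul_cancel₀ hAd, mul_one]
    refine ⟨?_, ?_, ?_⟩
    · rw [hdk]
      exact Finset.prod_ne_zero_iff.2 fun i _ => inv_ne_zero (hu i).1
    · show κ.det ∈ OO hP
      rw [hdk]
      exact prod_mem fun i _ => hinvu i
    · show (κ.det)⁻¹ ∈ OO hP
      rw [hdk, ← Finset.prod_inv_distrib]
      refine prod_mem fun i _ => ?_
      rw [inv_inv]
      exact (hu i).2.1
  · intro Q hQ hQP
    refine ⟨fun i j => RR.mem hQ hQP (h1 i j), ?_⟩
    rw [h2, hk]
    refine ⟨zpow_ne_zero _ hP0, RR.mem hQ hQP (RR.zpow k), ?_⟩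
    rw [← _root_.zpow_neg]
    exact RR.mem hQ hQP (RR.zpow (-k))

theorem ndvd {P Q : F[X]} (hPm : P.Monic) (hP : Irreducible P) (hQm : Q.Monic)
    (hQ : Irreducible Q) (hne : Q ≠ P) : ¬ Q ∣ P := fun hd =>
  hne (eq_of_monic_of_associated hQm hPm (hQ.associated_of_dvd hP hd))

end HNF

theorem hnf : HNFStmt := by
  intro F _ n P hPm hP g₀ hg₀
  obtain ⟨h, h1, h2, h3⟩ := HNF.single_prime hP g₀ hg₀
  exact ⟨h, h1, h2, fun Q hQm hQ hne => h3 Q hQ (HNF.ndvd hPm hP hQm hQ hne)⟩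

theorem glun : GLUNStmt := by
  intro F _ n S
  classical
  induction S using Finset.induction_on with
  | empty =>
    intro _ gP _
    exact ⟨1, by rw [det_one]; exact one_ne_zero, fun P hP => absurd hP (Finset.notMem_empty P),
      fun P _ hPi _ => HNF.GIn.one hPi⟩
  | insert P S hPS ih =>
    intro hS gP hgP
    obtain ⟨g, hg, hg1, hg2⟩ := ih (fun Q hQ => hS Q (Finset.mem_insert_of_mem hQ)) gP
      (fun Q hQ => hgP Q (Finset.mem_insert_of_mem hQ))
    have hPi := (hS P (Finset.mem_insert_self P S)).2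
    have hPm := (hS P (Finset.mem_insert_self P S)).1
    have hgu : IsUnit g.det := isUnit_iff_ne_zero.2 hg
    have hPdet := hgP P (Finset.mem_insert_self P S)
    obtain ⟨h, hh, ⟨κ, hκ, hκ2⟩, hh2⟩ := HNF.single_prime hPi (g⁻¹ * gP P) (by
      rw [det_mul, det_nonsing_inv, Ring.inverse_eq_inv']
      exact mul_ne_zero (inv_ne_zero hg) hPdet)
    refine ⟨g * h, ?_, ?_, ?_⟩
    · rw [det_mul]
      exact mul_ne_zero hg hh
    · intro Q hQ
      rcases Finset.mem_insert.1 hQ with hQP | hQS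
      · subst hQP
        refine ⟨κ, hκ, ?_⟩
        rw [hκ2, Matrix.mul_assoc, Matrix.mul_nonsing_inv_cancel_left _ _ hgu]
      · have hne : Q ≠ P := by
          rintro rfl
          exact hPS hQS
        obtain ⟨κ', hκ', hκ'2⟩ := hg1 Q hQS
        have hQ2 := hS Q hQ
        refine ⟨κ' * h, HNF.GIn.mul hQ2.2 hκ'
          (hh2 Q hQ2.2 (HNF.ndvd hPm hPi hQ2.1 hQ2.2 hne)), ?_⟩
        rw [← Matrix.mul_assoc, ← hκ'2]
    · intro Q hQm hQ hQS
      rw [Finset.mem_insert, not_or] at hQS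
      exact HNF.GIn.mul hQ (hg2 Q hQm hQ hQS.2) (hh2 Q hQ (HNF.ndvd hPm hPi hQm hQ hQS.1))

end Pool.HYP
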